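import Mathlib
import Pool.Agent.Lib.MP_12964e_gt.h39.Base

set_option autoImplicit false

namespace Pool.Agent.Results.MP_12964e_gt.CkPolish

/-- For every Polish space `X` and every separable real normed space `E`, the space `C(X, E)` of
continuous functions with the compact-open topology has a sigma-closure-preserving open base, that
is, it is an M1-space. -/
theorem result (X : Type*) [TopologicalSpace X] [PolishSpace X]
    (E : Type*) [NormedAddCommGroup E] [NormedSpace ℝ E] [TopologicalSpace.SeparableSpace E] :
    ∃ B : ℕ → Set (Set C(X, E)),
      (∀ n, ∀ Q ⊆ B n, closure (⋃₀ Q) = ⋃₀ (closure '' Q)) ∧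
      TopologicalSpace.IsTopologicalBasis (⋃ n, B n) :=
  CkM1.isM1_continuousMap X E

end Pool.Agent.Results.MP_12964e_gt.CkPolish
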