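import Mathlib
import Pool.Agent.Lib.MP_12964e_gt.h39c.NotM1

set_option autoImplicit false

namespace Pool.Agent.Results.MP_12964e_gt.StratifiableNotM1

open Pool.Agent.Lib.MP_12964e_gt.h39c

/-- There is a regular T1 space with a sigma-closure-preserving closed pseudobase and with no
sigma-closure-preserving open base: a stratifiable space which is not an M1-space. -/
theorem result : ∃ (Y : Type) (_ : TopologicalSpace Y), T3Space Y ∧
    (∃ P : ℕ → Set (Set Y),
      (∀ n, ∀ Q ⊆ P n, closure (⋃₀ Q) = ⋃₀ (closure '' Q)) ∧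
      (∀ n, ∀ C ∈ P n, IsClosed C) ∧
      (∀ (y : Y) (O : Set Y), IsOpen O → y ∈ O → ∃ n, ∃ C ∈ P n, y ∈ interior C ∧ C ⊆ O)) ∧
    ¬ ∃ B : ℕ → Set (Set Y),
      (∀ n, ∀ Q ⊆ B n, closure (⋃₀ Q) = ⋃₀ (closure '' Q)) ∧
      TopologicalSpace.IsTopologicalBasis (⋃ n, B n) := by
  have hreg : RegularSpace X := by
    refine RegularSpace.of_exists_mem_nhds_isClosed_subset ?_
    intro x s hs
    obtain ⟨O, hO, hOo, hxO⟩ := mem_nhds_iff.1 hs
    obtain ⟨n, C, hC, h1, h2⟩ := PP_pseudobase x O hOo hxO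
    exact ⟨C, mem_interior_iff_mem_nhds.1 h1, PP_closed n C hC, h2.trans hO⟩
  refine ⟨SeparationQuotient X, inferInstance, inferInstance, ?_, ?_⟩
  · refine ⟨fun n => {D | SeparationQuotient.mk ⁻¹' D ∈ PP n}, ?_, ?_, ?_⟩
    · intro n Q hQ
      have hcl : ∀ C ∈ Q, IsClosed C := by
        intro C hC
        rw [← SeparationQuotient.isQuotientMap_mk.isClosed_preimage]
        exact PP_closed n _ (hQ hC)
      have h1 : closure '' Q = Q := by
        ext C
        constructor
        · rintro ⟨C', hC', rfl⟩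
          rw [(hcl C' hC').closure_eq]
          exact hC'
        · intro hC
          exact ⟨C, hC, (hcl C hC).closure_eq⟩
      have h2 : IsClosed (⋃₀ Q) := by
        rw [← SeparationQuotient.isQuotientMap_mk.isClosed_preimage]
        have h3 : (SeparationQuotient.mk ⁻¹' (⋃₀ Q) : Set X) =
            ⋃₀ ((fun D => SeparationQuotient.mk ⁻¹' D) '' Q) := by
          ext x
          constructor
          · rintro ⟨C, hC, hx⟩
            exact ⟨_, ⟨C, hC, rfl⟩, hx⟩
          · rintro ⟨_, ⟨C, hC, rfl⟩, hx⟩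
            exact ⟨C, hC, hx⟩
        rw [h3]
        apply PP_sUnion_closed n
        rintro _ ⟨C, hC, rfl⟩
        exact hQ hC
      rw [h1, h2.closure_eq]
    · intro n C hC
      rw [← SeparationQuotient.isQuotientMap_mk.isClosed_preimage]
      exact PP_closed n _ hC
    · intro y O hO hy
      obtain ⟨x, rfl⟩ := SeparationQuotient.surjective_mk y
      obtain ⟨n, C, hC, h1, h2⟩ := PP_pseudobase x (SeparationQuotient.mk ⁻¹' O)
        (hO.preimage SeparationQuotient.continuous_mk) hy
      refine ⟨n, SeparationQuotient.mk '' C, ?_, ?_, ?_⟩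
      · change SeparationQuotient.mk ⁻¹' (SeparationQuotient.mk '' C) ∈ PP n
        rw [SeparationQuotient.preimage_image_mk_closed (PP_closed n C hC)]
        exact hC
      · exact SeparationQuotient.isOpenMap_mk.image_interior_subset C ⟨x, h1, rfl⟩
      · rintro _ ⟨z, hz, rfl⟩
        exact h2 hz
  · rintro ⟨B, hB, hbase⟩
    refine not_M1 reg_root ⟨fun n => {V | ∃ V' ∈ B n, V = SeparationQuotient.mk ⁻¹' V'}, ?_, ?_⟩
    · intro n Q hQ
      set Q' : Set (Set (SeparationQuotient X)) :=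
        {V' | V' ∈ B n ∧ SeparationQuotient.mk ⁻¹' V' ∈ Q} with hQ'
      have h1 : Q = (fun D => SeparationQuotient.mk ⁻¹' D) '' Q' := by
        ext V
        constructor
        · intro hV
          obtain ⟨V', hV', rfl⟩ := hQ hV
          exact ⟨V', ⟨hV', hV⟩, rfl⟩
        · rintro ⟨V', hV', rfl⟩
          exact hV'.2
      have h2 : ⋃₀ Q = SeparationQuotient.mk ⁻¹' (⋃₀ Q') := by
        rw [h1]
        ext x
        constructor
        · rintro ⟨_, ⟨C, hC, rfl⟩, hx⟩
          exact ⟨C, hC, hx⟩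
        · rintro ⟨C, hC, hx⟩
          exact ⟨_, ⟨C, hC, rfl⟩, hx⟩
      rw [h2, ← SeparationQuotient.preimage_mk_closure, hB n Q' (fun V' hV' => hV'.1), h1]
      ext x
      constructor
      · rintro ⟨_, ⟨C, hC, rfl⟩, hx⟩
        refine ⟨_, ⟨_, ⟨C, hC, rfl⟩, rfl⟩, ?_⟩
        rw [← SeparationQuotient.preimage_mk_closure]
        exact hx
      · rintro ⟨_, ⟨_, ⟨C, hC, rfl⟩, rfl⟩, hx⟩
        rw [← SeparationQuotient.preimage_mk_closure] at hx
        exact ⟨_, ⟨C, hC, rfl⟩, hx⟩
    · refine TopologicalSpace.isTopologicalBasis_of_isOpen_of_nhds ?_ ?_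
      · intro V hV
        obtain ⟨n, V', hV', rfl⟩ := Set.mem_iUnion.1 hV
        exact (hbase.isOpen (Set.mem_iUnion.2 ⟨n, hV'⟩)).preimage SeparationQuotient.continuous_mk
      · intro x O hx hO
        have h3 : SeparationQuotient.mk ⁻¹' (SeparationQuotient.mk '' O) = O :=
          SeparationQuotient.preimage_image_mk_open hO
        obtain ⟨V', hV', hxV, hVO⟩ := hbase.exists_subset_of_mem_open
          (show SeparationQuotient.mk x ∈ SeparationQuotient.mk '' O from ⟨x, hx, rfl⟩)
          (SeparationQuotient.isOpenMap_mk O hO)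
        obtain ⟨n, hn⟩ := Set.mem_iUnion.1 hV'
        refine ⟨SeparationQuotient.mk ⁻¹' V', Set.mem_iUnion.2 ⟨n, V', hn, rfl⟩, hxV, ?_⟩
        rw [← h3]
        exact Set.preimage_mono hVO

end Pool.Agent.Results.MP_12964e_gt.StratifiableNotM1
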